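import Pool.Agent.H628R3.RO.G1
import Pool.Agent.H687R2.IntPoly

/-!
# Nondeterministic exponential time with advice: soundness of advice can be certified
-/

set_option autoImplicit false

namespace Pool.Agent.W2helper58.NX

open Pool.Agent.NPC Pool.Agent.H628R3.RO

/-- The language `L` is in nondeterministic exponential time: `x` is in `L` if and only if some
certificate `w` of length `2 ^ p(|x|)` is accepted by a verifier working in time polynomial in the
length of `⟨w, x⟩`. -/
def IsNEXP (L : Set (List Bool)) : Prop :=
  ∃ (V : List Bool → List Bool) (p : Polynomial ℕ), PolyTime V ∧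
    ∀ x, x ∈ L ↔ ∃ w : List Bool, w.length = 2 ^ p.eval x.length ∧ V (pairBits w x) = [true]

/-- typed certificates -/
theorem isNEXP_of {β : Type} [TEnc β] [TDec β] {L : Set (List Bool)} {R : List Bool × β → Bool}
    (hR : Poly R) (q : Polynomial ℕ)
    (h : ∀ x, x ∈ L ↔ ∃ y : β, sz y ≤ 2 ^ q.eval x.length ∧ R (x, y) = true) : IsNEXP L := by
  have h1 : Poly (fun z => (unpair z).1) := Poly.fst poly_unpair
  have h2 : Poly (fun z => (unpair z).2) := Poly.snd poly_unpair
  have h3 : Poly (fun z => (unpair (unpair z).1).1) := h1.comp h1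
  have h4 : Poly (fun z => unbits β (unpair (unpair z).1).1) := poly_unbits.comp h3
  have h5 : Poly (fun z : List Bool => decide (4 * (unpair (unpair z).1).1.length ≤
      (unpair z).1.length)) :=
    Poly.decide_le (Poly.mul (NPC.Poly.const 4) (Poly.length h3)) (Poly.length h1)
  have h6 : Poly (fun z : List Bool => match unbits β (unpair (unpair z).1).1 with
      | none => false
      | some y => R ((unpair z).2, y)) := by
    refine (Poly.optCases (o := fun z => unbits β (unpair (unpair z).1).1)
      (g := fun _ => false) (h := fun z y => R ((unpair z).2, y)) h4 (NPC.Poly.const false)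
      (hR.comp (Poly.pair (h2.comp (Poly.fst Poly.id)) (Poly.snd Poly.id)))).congr fun z => ?_
    cases unbits β (unpair (unpair z).1).1 <;> rfl
  refine ⟨fun z => [decide (4 * (unpair (unpair z).1).1.length ≤ (unpair z).1.length) &&
    match unbits β (unpair (unpair z).1).1 with
      | none => false
      | some y => R ((unpair z).2, y)], q + Polynomial.C 2,
    H622R2.polyTime_of_poly_list (Poly.cons (Poly.and h5 h6) (NPC.Poly.const [])), fun x => ?_⟩
  rw [h x]
  have hpow : 2 ^ (q + Polynomial.C 2).eval x.length = 4 * 2 ^ q.eval x.length := by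
    rw [Polynomial.eval_add, Polynomial.eval_C, pow_add]
    ring
  constructor
  · rintro ⟨y, hy, hRy⟩
    have hpos : 1 ≤ 2 ^ q.eval x.length := Nat.one_le_two_pow
    refine ⟨pairBits (bits y) (List.replicate (4 * 2 ^ q.eval x.length - (2 * sz y + 1)) false),
      ?_, ?_⟩
    · rw [hpow, length_pairBits, bits_length, List.length_replicate]
      omega
    · simp only [unpair_pairBits, unbits_bits, hRy, Bool.and_true, List.cons.injEq, and_true,
        decide_eq_true_eq, length_pairBits, bits_length, List.length_replicate]
      omega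
  · rintro ⟨w, hw, hV⟩
    simp only [unpair_pairBits, List.cons.injEq, and_true, Bool.and_eq_true,
      decide_eq_true_eq] at hV
    obtain ⟨hV1, hV2⟩ := hV
    cases hy : unbits β (unpair w).1 with
    | none => rw [hy] at hV2; simp at hV2
    | some y =>
      rw [hy] at hV2
      refine ⟨y, ?_, hV2⟩
      have e1 := bits_of_unbits hy
      rw [← bits_length y, e1]
      rw [hw, hpow] at hV1
      omega

/-- remove the padding -/
def unp (a : List Bool) : List Bool := a.drop (lvl a + 1)

theorem unp_candStr (r : ℕ) (a : List Bool) : unp (candStr r a) = a := by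
  unfold unp
  rw [lvl_candStr, drop_candStr]

theorem p_unp {α : Type} [TEnc α] {a : α → List Bool} (ha : Poly a) :
    Poly (fun x => unp (a x)) := p_drop ha ((u_lvl ha).add (UPoly.const 1))

theorem length_unp_le (a : List Bool) : (unp a).length ≤ a.length := by
  unfold unp
  rw [List.length_drop]
  omega

/-- the unsound advice strings for the verifier of the complement -/
def Uns (L B : Set (List Bool)) (K : ℕ) : Set (List Bool) :=
  {u | valB (unpair u).1 ≤ u.length ^ K ∧ ∃ x : List Bool, x.length = valB (unpair u).1 ∧
    x ∈ L ∧ pairBits x (unp (unpair u).2) ∈ B}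

theorem ustep_len (s : List Bool × List Bool × Bool) :
    (ustep s).1.length + (ustep s).2.1.length ≤ s.1.length + s.2.1.length := by
  obtain ⟨a, l, b⟩ := s
  unfold ustep
  cases b with
  | true => simp
  | false =>
    match l with
    | [] => simp
    | true :: [] => simp
    | true :: c :: l' => simp; omega
    | false :: l' => simp

theorem length_unpair_le (u : List Bool) : (unpair u).1.length ≤ u.length ∧
    (unpair u).2.length ≤ u.length := by
  have h : ∀ (k : ℕ) (s : List Bool × List Bool × Bool),
      (ustep^[k] s).1.length + (ustep^[k] s).2.1.length ≤ s.1.length + s.2.1.length := by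
    intro k
    induction k with
    | zero => intro s; simp
    | succ k ih =>
      intro s
      rw [Function.iterate_succ_apply]
      exact (ih _).trans (ustep_len s)
  have h1 := h u.length ([], u, false)
  unfold unpair
  simp only [List.length_reverse, List.length_nil, zero_add] at h1 ⊢
  omega

theorem two_pow_sum (a b c : ℕ) : 4 * 2 ^ a + 4 * 2 ^ b + 4 * 2 ^ c + 5 ≤ 2 ^ (a + b + c + 5) := by
  have h1 : 2 ^ a ≤ 2 ^ (a + b + c) := Nat.pow_le_pow_right (by norm_num) (by omega)
  have h2 : 2 ^ b ≤ 2 ^ (a + b + c) := Nat.pow_le_pow_right (by norm_num) (by omega)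
  have h3 : 2 ^ c ≤ 2 ^ (a + b + c) := Nat.pow_le_pow_right (by norm_num) (by omega)
  have h4 : 1 ≤ 2 ^ (a + b + c) := Nat.one_le_two_pow
  rw [pow_add 2 (a + b + c) 5]
  omega

/-- acceptance of a certificate of the right length -/
def acc (V : List Bool → List Bool) (p : Polynomial ℕ) (x w : List Bool) : Bool :=
  decide (w.length = 2 ^ p.eval x.length) && decide (V (pairBits w x) = [true])

theorem acc_iff {V : List Bool → List Bool} {p : Polynomial ℕ} {x w : List Bool} :
    acc V p x w = true ↔ w.length = 2 ^ p.eval x.length ∧ V (pairBits w x) = [true] := by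
  simp only [acc, Bool.and_eq_true, decide_eq_true_eq]

theorem p_acc {V : List Bool → List Bool} (hV : PolyTime V) (p : Polynomial ℕ) {α : Type}
    [TEnc α] {x w : α → List Bool} (hx : Poly x) (hw : Poly w) :
    Poly (fun a => acc V p (x a) (w a)) :=
  Poly.and (Poly.decide_eq (Poly.length hw)
    (Poly.npow (NPC.Poly.const 2) ((UPoly.length hx).eval p)))
    (Poly.decide_eq ((H622R2.poly_of_polyTime hV).comp (H622R2.poly_pairBits hw hx))
      (NPC.Poly.const [true]))

theorem isNEXP_Uns {L B : Set (List Bool)} (hL : IsNEXP L) (hB : IsNEXP B) (K : ℕ) :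
    IsNEXP (Uns L B K) := by
  obtain ⟨VL, pL, hVL, hL⟩ := hL
  obtain ⟨VB, pB, hVB, hB⟩ := hB
  have hX : ∀ n, (Polynomial.X ^ K : Polynomial ℕ).eval n = n ^ K := fun n => by
    rw [Polynomial.eval_pow, Polynomial.eval_X]
  refine isNEXP_of (β := List Bool × List Bool × List Bool)
    (R := fun z => (decide (valB (unpair z.1).1 ≤ (Polynomial.X ^ K : Polynomial ℕ).eval z.1.length) &&
      decide (z.2.1.length = valB (unpair z.1).1)) &&
      (acc VL pL z.2.1 z.2.2.1 && acc VB pB (pairBits z.2.1 (unp (unpair z.1).2)) z.2.2.2)) ?_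
    (Polynomial.X ^ K + pL.comp (Polynomial.X ^ K) +
      pB.comp (Polynomial.C 2 * Polynomial.X ^ K + Polynomial.C 1 + Polynomial.X) +
      Polynomial.C 5) fun u => ?_
  · have h0 : Poly (fun z : List Bool × List Bool × List Bool × List Bool => z.1) := Poly.fst Poly.id
    have h1 : Poly (fun z : List Bool × List Bool × List Bool × List Bool => z.2.1) :=
      Poly.fst (Poly.snd Poly.id)
    have h2 : Poly (fun z : List Bool × List Bool × List Bool × List Bool => z.2.2.1) :=
      Poly.fst (Poly.snd (Poly.snd Poly.id))
    have h3 : Poly (fun z : List Bool × List Bool × List Bool × List Bool => z.2.2.2) :=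
      Poly.snd (Poly.snd (Poly.snd Poly.id))
    have h4 : Poly (fun z : List Bool × List Bool × List Bool × List Bool =>
        valB (unpair z.1).1) := Poly.valBits (Poly.fst (poly_unpair.comp h0))
    exact Poly.and (Poly.and (Poly.decide_le h4 ((UPoly.length h0).eval _).toPoly)
      (Poly.decide_eq (Poly.length h1) h4))
      (Poly.and (p_acc hVL pL h1 h2)
        (p_acc hVB pB (H622R2.poly_pairBits h1 (p_unp (Poly.snd (poly_unpair.comp h0)))) h3))
  · simp only [Uns, Set.mem_ofPred_eq, Bool.and_eq_true, decide_eq_true_eq, hX, acc_iff]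
    constructor
    · rintro ⟨h1, x, h2, h3, h4⟩
      obtain ⟨wL, h5, h6⟩ := (hL x).1 h3
      obtain ⟨wB, h7, h8⟩ := (hB _).1 h4
      refine ⟨(x, wL, wB), ?_, ⟨h1, h2⟩, ⟨h5, h6⟩, h7, h8⟩
      have e1 := sz_listBool_le x
      have e2 := sz_listBool_le wL
      have e3 := sz_listBool_le wB
      have e4 : x.length ≤ u.length ^ K := h2 ▸ h1
      have e5 : wL.length ≤ 2 ^ pL.eval (u.length ^ K) := by
        rw [h5]
        exact Nat.pow_le_pow_right (by norm_num) (eval_mono pL e4)
      have e6 : wB.length ≤ 2 ^ pB.eval (2 * u.length ^ K + 1 + u.length) := by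
        rw [h7]
        apply Nat.pow_le_pow_right (by norm_num)
        apply eval_mono
        rw [length_pairBits]
        have e7 := length_unp_le (unpair u).2
        have e8 := (length_unpair_le u).2
        omega
      have e9 := two_pow_sum (u.length ^ K) (pL.eval (u.length ^ K))
        (pB.eval (2 * u.length ^ K + 1 + u.length))
      have e10 : u.length ^ K ≤ 2 ^ (u.length ^ K) := Nat.lt_two_pow_self.le
      rw [sz_pair, sz_pair]
      simp only [Polynomial.eval_add, Polynomial.eval_comp, Polynomial.eval_mul,
        Polynomial.eval_pow, Polynomial.eval_X, Polynomial.eval_C]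
      omega
    · rintro ⟨⟨x, wL, wB⟩, -, ⟨h1, h2⟩, ⟨h5, h6⟩, h7, h8⟩
      exact ⟨h1, x, h2, (hL x).2 ⟨wL, h5, h6⟩, (hB _).2 ⟨wB, h7, h8⟩⟩

/-- the new verifier of the complement: it guesses an advice string and certifies its soundness -/
def New (B B' : Set (List Bool)) (q : Polynomial ℕ) : Set (List Bool) :=
  {y | valB (unpair (unpair y).2).1 ≤ q.eval (unpair y).1.length ∧ ∃ a : List Bool,
    (pairBits (unpair y).1.length.bits a).length = valB (unpair (unpair y).2).1 ∧
    pairBits (pairBits (unpair y).1.length.bits a) (unpair (unpair y).2).2 ∈ B' ∧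
    pairBits (unpair y).1 (unp a) ∈ B}

theorem isNEXP_New {B B' : Set (List Bool)} (hB : IsNEXP B) (hB' : IsNEXP B')
    (q : Polynomial ℕ) : IsNEXP (New B B' q) := by
  obtain ⟨VB, pB, hVB, hB⟩ := hB
  obtain ⟨VC, pC, hVC, hC⟩ := hB'
  refine isNEXP_of (β := List Bool × List Bool × List Bool)
    (R := fun z => (decide (valB (unpair (unpair z.1).2).1 ≤ q.eval (unpair z.1).1.length) &&
      decide ((pairBits (unpair z.1).1.length.bits z.2.1).length =
        valB (unpair (unpair z.1).2).1)) &&
      (acc VC pC (pairBits (pairBits (unpair z.1).1.length.bits z.2.1) (unpair (unpair z.1).2).2)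
        z.2.2.1 && acc VB pB (pairBits (unpair z.1).1 (unp z.2.1)) z.2.2.2)) ?_
    (q + pC.comp (Polynomial.C 2 * q + Polynomial.C 1 + Polynomial.X) +
      pB.comp (Polynomial.C 2 * Polynomial.X + Polynomial.C 1 + q) +
      Polynomial.C 5) fun y => ?_
  · have h0 : Poly (fun z : List Bool × List Bool × List Bool × List Bool => z.1) := Poly.fst Poly.id
    have h1 : Poly (fun z : List Bool × List Bool × List Bool × List Bool => z.2.1) :=
      Poly.fst (Poly.snd Poly.id)
    have h2 : Poly (fun z : List Bool × List Bool × List Bool × List Bool => z.2.2.1) :=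
      Poly.fst (Poly.snd (Poly.snd Poly.id))
    have h3 : Poly (fun z : List Bool × List Bool × List Bool × List Bool => z.2.2.2) :=
      Poly.snd (Poly.snd (Poly.snd Poly.id))
    have hx : Poly (fun z : List Bool × List Bool × List Bool × List Bool => (unpair z.1).1) :=
      Poly.fst (poly_unpair.comp h0)
    have hs : Poly (fun z : List Bool × List Bool × List Bool × List Bool =>
        unpair (unpair z.1).2) := poly_unpair.comp (Poly.snd (poly_unpair.comp h0))
    have h4 : Poly (fun z : List Bool × List Bool × List Bool × List Bool =>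
        valB (unpair (unpair z.1).2).1) := Poly.valBits (Poly.fst hs)
    have h5 : Poly (fun z : List Bool × List Bool × List Bool × List Bool =>
        pairBits (unpair z.1).1.length.bits z.2.1) :=
      H622R2.poly_pairBits (NPC.Poly.natBits (Poly.length hx)) h1
    exact Poly.and (Poly.and (Poly.decide_le h4 ((UPoly.length hx).eval q).toPoly)
      (Poly.decide_eq (Poly.length h5) h4))
      (Poly.and (p_acc hVC pC (H622R2.poly_pairBits h5 (Poly.snd hs)) h2)
        (p_acc hVB pB (H622R2.poly_pairBits hx (p_unp h1)) h3))
  · simp only [New, Set.mem_ofPred_eq, Bool.and_eq_true, decide_eq_true_eq, acc_iff]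
    constructor
    · rintro ⟨h1, a, h2, h3, h4⟩
      obtain ⟨wC, h5, h6⟩ := (hC _).1 h3
      obtain ⟨wB, h7, h8⟩ := (hB _).1 h4
      refine ⟨(a, wC, wB), ?_, ⟨h1, h2⟩, ⟨h5, h6⟩, h7, h8⟩
      have e1 := sz_listBool_le a
      have e2 := sz_listBool_le wC
      have e3 := sz_listBool_le wB
      obtain ⟨hl1, hl2⟩ := length_unpair_le y
      obtain ⟨hl3, hl4⟩ := length_unpair_le (unpair y).2
      have hq := eval_mono q hl1
      have e4 : a.length ≤ q.eval y.length := by
        rw [length_pairBits] at h2
        omega
      have e5 : wC.length ≤ 2 ^ pC.eval (2 * q.eval y.length + 1 + y.length) := by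
        rw [h5]
        apply Nat.pow_le_pow_right (by norm_num)
        apply eval_mono
        rw [length_pairBits, h2]
        omega
      have e6 : wB.length ≤ 2 ^ pB.eval (2 * y.length + 1 + q.eval y.length) := by
        rw [h7]
        apply Nat.pow_le_pow_right (by norm_num)
        apply eval_mono
        rw [length_pairBits]
        have e7 := length_unp_le a
        omega
      have e9 := two_pow_sum (q.eval y.length) (pC.eval (2 * q.eval y.length + 1 + y.length))
        (pB.eval (2 * y.length + 1 + q.eval y.length))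
      have e10 : q.eval y.length ≤ 2 ^ (q.eval y.length) := Nat.lt_two_pow_self.le
      rw [sz_pair, sz_pair]
      simp only [Polynomial.eval_add, Polynomial.eval_comp, Polynomial.eval_mul,
        Polynomial.eval_X, Polynomial.eval_C]
      omega
    · rintro ⟨⟨a, wC, wB⟩, -, ⟨h1, h2⟩, ⟨h5, h6⟩, h7, h8⟩
      exact ⟨h1, a, h2, (hC _).2 ⟨wC, h5, h6⟩, (hB _).2 ⟨wB, h7, h8⟩⟩

/-- **Composition.** Advice for the complement of `L` can be replaced by advice for the complement
of the set of unsound advice strings. -/
theorem compose {L B : Set (List Bool)} {f : ℕ → List Bool}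
    (hf : ∀ x, x ∉ L ↔ pairBits x (f x.length) ∈ B) {K : ℕ} {N : ℕ → ℕ} {q : Polynomial ℕ}
    (h1 : ∀ n, n ≤ N n ^ K) (h2 : ∀ n, 2 * n.bits.length + 2 + (f n).length ≤ N n)
    (h3 : ∀ n, N n ≤ q.eval n) {B' : Set (List Bool)} {f' : ℕ → List Bool}
    (hf' : ∀ u, u ∉ Uns L B K ↔ pairBits u (f' u.length) ∈ B') (x : List Bool) :
    x ∉ L ↔ pairBits x (pairBits (N x.length).bits (f' (N x.length))) ∈ New B B' q := by
  simp only [New, Set.mem_ofPred_eq, unpair_pairBits, valB_bits]
  constructor
  · intro hx
    set n := x.length with hn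
    refine ⟨h3 n, candStr (N n - (2 * n.bits.length + 2 + (f n).length)) (f n), ?_, ?_, ?_⟩
    · rw [length_pairBits, length_candStr]
      have := h2 n
      omega
    · have hlen : (pairBits n.bits (candStr (N n - (2 * n.bits.length + 2 + (f n).length))
          (f n))).length = N n := by
        rw [length_pairBits, length_candStr]
        have := h2 n
        omega
      have h4 := (hf' (pairBits n.bits (candStr (N n - (2 * n.bits.length + 2 + (f n).length))
        (f n)))).1 (by
          rintro ⟨-, x', h5, h6, h7⟩
          rw [unpair_pairBits] at h5 h7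
          simp only [valB_bits, unp_candStr] at h5 h7
          rw [← h5] at h7
          exact ((hf x').2 h7) h6)
      rw [hlen] at h4
      exact h4
    · rw [unp_candStr]
      exact (hf x).1 hx
  · rintro ⟨-, a, h4, h5, h6⟩ hx
    have h7 := (hf' (pairBits x.length.bits a)).2 (by rw [h4]; exact h5)
    apply h7
    refine ⟨?_, x, ?_, hx, ?_⟩
    · rw [unpair_pairBits, h4]
      simp only [valB_bits]
      exact h1 x.length
    · rw [unpair_pairBits]
      simp only [valB_bits]
    · rw [unpair_pairBits]
      exact h6

end Pool.Agent.W2helper58.NX
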