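import Pool.Agent.W2helper58.NX.Base

/-!
# The gap theorems for the advice needed to complement nondeterministic exponential time
-/

set_option autoImplicit false

namespace Pool.Agent.W2helper58.NX

open Pool.Agent.NPC Pool.Agent.H628R3.RO

/-- `L` is in `NEXP` with advice of length at most `g`: there are a language `B` in `NEXP` and advice
strings `f n` of length at most `g n` such that `x` is in `L` if and only if `⟨x, f(|x|)⟩` is in
`B`. -/
def WithAdvice (g : ℕ → ℝ) (L : Set (List Bool)) : Prop :=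
  ∃ (B : Set (List Bool)) (f : ℕ → List Bool), IsNEXP B ∧ (∀ n, ((f n).length : ℝ) ≤ g n) ∧
    ∀ x, x ∈ L ↔ pairBits x (f x.length) ∈ B

/-- `coNEXP ⊆ NEXP / O(n ^ δ)` -/
def Pow (δ : ℝ) : Prop :=
  ∀ L, IsNEXP L → ∃ C : ℝ, WithAdvice (fun n => C * (n : ℝ) ^ δ + C) Lᶜ

/-- `coNEXP ⊆ NEXP / (c n + O(1))` -/
def Lin (c : ℝ) : Prop :=
  ∀ L, IsNEXP L → ∃ C : ℝ, WithAdvice (fun n => c * n + C) Lᶜ

theorem size_le_log (n : ℕ) : (n.size : ℝ) ≤ 2 * Real.log n + 1 ∨ n = 0 := by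
  rcases Nat.eq_zero_or_pos n with h | h
  · exact Or.inr h
  · left
    have h1 : n.size ≠ 0 := by
      rw [Ne, Nat.size_eq_zero]
      omega
    obtain ⟨k, hk⟩ : ∃ k, n.size = k + 1 := ⟨n.size - 1, by omega⟩
    have h2 : k < n.size := by omega
    rw [Nat.lt_size] at h2
    have h3 : (2 : ℝ) ^ k ≤ n := by exact_mod_cast h2
    have h4 := Real.log_le_log (by positivity) h3
    rw [Real.log_pow] at h4
    have h5 := Real.log_two_gt_d9
    rw [hk]
    push_cast
    nlinarith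

/-- logarithms are smaller than powers -/
theorem size_le_rpow {δ : ℝ} (hδ : 0 < δ) : ∃ C : ℝ, 0 ≤ C ∧ ∀ n : ℕ,
    (n.size : ℝ) ≤ C * (n : ℝ) ^ δ + C := by
  refine ⟨2 / δ + 1, by positivity, fun n => ?_⟩
  have h0 : (0 : ℝ) ≤ (n : ℝ) ^ δ := by positivity
  rcases size_le_log n with h | h
  · have h1 := Real.log_le_rpow_div (x := (n : ℝ)) (by positivity) hδ
    have h2 : 2 * Real.log n ≤ 2 / δ * (n : ℝ) ^ δ := by
      calc 2 * Real.log n ≤ 2 * ((n : ℝ) ^ δ / δ) := by linarith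
        _ = 2 / δ * (n : ℝ) ^ δ := by ring
    have h3 : 0 < 2 / δ := by positivity
    nlinarith
  · subst h
    simp only [Nat.size_zero, Nat.cast_zero]
    have h3 : 0 < 2 / δ := by positivity
    have : (0 : ℝ) ≤ ((0 : ℕ) : ℝ) ^ δ := by positivity
    simp only [Nat.cast_zero] at this
    nlinarith

theorem rpow_le_self_add {δ : ℝ} (h1 : δ ≤ 1) (h0 : 0 < δ) (n : ℕ) :
    (n : ℝ) ^ δ ≤ n := by
  rcases Nat.eq_zero_or_pos n with h | h
  · subst h
    rw [Nat.cast_zero, Real.zero_rpow h0.ne']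
  · have h2 : (1 : ℝ) ≤ n := by exact_mod_cast h
    calc (n : ℝ) ^ δ ≤ (n : ℝ) ^ (1 : ℝ) := Real.rpow_le_rpow_of_exponent_le h2 h1
      _ = n := Real.rpow_one _

/-- the root, rounded up -/
theorem exists_root {δ : ℝ} (hδ : 0 < δ) : ∃ (K : ℕ) (r : ℕ → ℕ), (∀ n, n ≤ r n ^ K) ∧
    ∀ n, (r n : ℝ) ≤ (n : ℝ) ^ δ + 2 := by
  obtain ⟨K, hK⟩ := exists_nat_gt (1 / δ)
  have hK0 : (0 : ℝ) < K := lt_trans (by positivity) hK
  have hK1 : 1 / (K : ℝ) ≤ δ := by
    rw [div_lt_iff₀ hδ] at hK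
    rw [div_le_iff₀ hK0]
    linarith
  refine ⟨K, fun n => ⌈(n : ℝ) ^ (1 / (K : ℝ))⌉₊, fun n => ?_, fun n => ?_⟩
  · have h1 : (n : ℝ) ≤ (⌈(n : ℝ) ^ (1 / (K : ℝ))⌉₊ : ℝ) ^ K := by
      calc (n : ℝ) = ((n : ℝ) ^ (1 / (K : ℝ))) ^ K := by
            rw [← Real.rpow_natCast, ← Real.rpow_mul (by positivity), one_div_mul_cancel hK0.ne',
              Real.rpow_one]
        _ ≤ _ := pow_le_pow_left₀ (by positivity) (Nat.le_ceil _) K
    exact_mod_cast h1
  · have h1 := Nat.ceil_lt_add_one (a := (n : ℝ) ^ (1 / (K : ℝ))) (by positivity)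
    have h2 : (n : ℝ) ^ (1 / (K : ℝ)) ≤ (n : ℝ) ^ δ + 1 := by
      rcases Nat.eq_zero_or_pos n with h | h
      · subst h
        rw [Nat.cast_zero, Real.zero_rpow (by positivity)]
        positivity
      · have h3 : (1 : ℝ) ≤ n := by exact_mod_cast h
        have := Real.rpow_le_rpow_of_exponent_le h3 hK1
        linarith
    linarith

/-- The general step: advice of length `g` for this language and small advice for all languages
give smaller advice for this language. -/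
theorem step {L B : Set (List Bool)} {f : ℕ → List Bool} (hL : IsNEXP L) (hB : IsNEXP B)
    (hf : ∀ x, x ∉ L ↔ pairBits x (f x.length) ∈ B) {g : ℕ → ℝ}
    (hg : ∀ n, ((f n).length : ℝ) ≤ g n) {D : ℝ} (hD : ∀ n : ℕ, g n ≤ D * n + D) {δ : ℝ}
    (hδ : 0 < δ) (hδ1 : δ ≤ 1) : ∃ (U : Set (List Bool)) (N : ℕ → ℕ) (C : ℝ), IsNEXP U ∧ 0 ≤ C ∧
      (∀ n, (N n : ℝ) ≤ g n + C * (n : ℝ) ^ δ + C) ∧
      ∀ (g' : ℕ → ℝ), WithAdvice g' Uᶜ →
        WithAdvice (fun n => g' (N n) + 2 * (N n).size + 1) Lᶜ := by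
  obtain ⟨K, r, hr1, hr2⟩ := exists_root hδ
  obtain ⟨C, hC0, hC⟩ := size_le_rpow hδ
  set N : ℕ → ℕ := fun n => 2 * n.bits.length + 2 + (f n).length + r n with hN
  have hbits : ∀ n : ℕ, n.bits.length = n.size := fun n => Nat.size_eq_bits_len n
  -- a polynomial bound
  obtain ⟨q, hq⟩ : ∃ q : Polynomial ℕ, ∀ n, N n ≤ q.eval n := by
    obtain ⟨E, hE⟩ := exists_nat_ge (max D 0)
    refine ⟨Polynomial.C (2 * 1 + E + 1) * Polynomial.X + Polynomial.C (4 + E), fun n => ?_⟩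
    have e1 : (E : ℝ) ≥ D := le_trans (le_max_left _ _) hE
    have e2 : n.size ≤ n := Nat.size_le.2 Nat.lt_two_pow_self
    have e3 : ((f n).length : ℝ) ≤ E * n + E := by
      refine (hg n).trans ((hD n).trans ?_)
      have : (0 : ℝ) ≤ n := by positivity
      nlinarith
    have e3' : (f n).length ≤ E * n + E := by exact_mod_cast e3
    have e4 : (r n : ℝ) ≤ n + 2 := by
      have := rpow_le_self_add hδ1 hδ n
      linarith [hr2 n]
    have e4' : r n ≤ n + 2 := by exact_mod_cast e4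
    simp only [hN, hbits, Polynomial.eval_add, Polynomial.eval_mul, Polynomial.eval_C,
      Polynomial.eval_X]
    nlinarith
  refine ⟨Uns L B K, N, 2 * C + 4, isNEXP_Uns hL hB K, by positivity, fun n => ?_,
    fun g' hg' => ?_⟩
  · simp only [hN, hbits]
    push_cast
    have e1 := hC n
    have e2 := hr2 n
    have e3 := hg n
    have e4 : (0 : ℝ) ≤ (n : ℝ) ^ δ := by positivity
    nlinarith
  · obtain ⟨B', f', hB', hlen, hf'⟩ := hg'
    refine ⟨New B B' q, fun n => pairBits (N n).bits (f' (N n)), isNEXP_New hB hB' q,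
      fun n => ?_, fun x => ?_⟩
    · rw [length_pairBits, hbits]
      push_cast
      have := hlen (N n)
      linarith
    · exact compose hf (fun n => (hr1 n).trans (Nat.pow_le_pow_left (by simp [hN]) K))
        (fun n => by simp only [hN]; omega) hq hf' x

theorem WithAdvice.mono {g g' : ℕ → ℝ} (h : ∀ n, g n ≤ g' n) {L : Set (List Bool)}
    (hL : WithAdvice g L) : WithAdvice g' L := by
  obtain ⟨B, f, h1, h2, h3⟩ := hL
  exact ⟨B, f, h1, fun n => (h2 n).trans (h n), h3⟩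

/-- one round, powers -/
theorem Pow.sq {δ : ℝ} (h0 : 0 < δ) (h1 : δ ≤ 1) (h : Pow δ) : Pow (δ * δ) := by
  intro L hL
  obtain ⟨C, B, f, hB, hlen, hf⟩ := h L hL
  have hlen' : ∀ n : ℕ, ((f n).length : ℝ) ≤ |C| * (n : ℝ) ^ δ + |C| := by
    intro n
    refine (hlen n).trans ?_
    have e4 : (0 : ℝ) ≤ (n : ℝ) ^ δ := by positivity
    have := le_abs_self C
    nlinarith
  obtain ⟨U, N, D, hU, hD0, hN, hstep⟩ := step hL hB hf hlen' (D := |C|) (fun n => by
    have := rpow_le_self_add h1 h0 n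
    have := abs_nonneg C
    nlinarith) h0 h1
  obtain ⟨C', hC'⟩ := h U hU
  obtain ⟨E, hE0, hE⟩ := size_le_rpow h0
  -- bound for the new length
  set F := |C| + D with hF
  have hF0 : 0 ≤ F := by positivity
  have hNF : ∀ n : ℕ, (N n : ℝ) ≤ F * (n : ℝ) ^ δ + F := by
    intro n
    have := hN n
    rw [hF]
    linarith
  have hpow : ∀ n : ℕ, ((N n : ℕ) : ℝ) ^ δ ≤ (2 * F + 1) * ((n : ℝ) ^ (δ * δ) + 1) := by
    intro n
    have e4 : (0 : ℝ) ≤ (n : ℝ) ^ (δ * δ) := by positivity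
    rcases Nat.eq_zero_or_pos n with hn | hn
    · subst hn
      have h2 := hNF 0
      rw [Nat.cast_zero, Real.zero_rpow h0.ne', mul_zero, zero_add] at h2
      have h3 : ((N 0 : ℕ) : ℝ) ^ δ ≤ (F + 1) ^ (1 : ℝ) := by
        calc ((N 0 : ℕ) : ℝ) ^ δ ≤ (F + 1) ^ δ :=
              Real.rpow_le_rpow (by positivity) (by linarith) h0.le
          _ ≤ (F + 1) ^ (1 : ℝ) := Real.rpow_le_rpow_of_exponent_le (by linarith) h1
      rw [Real.rpow_one] at h3
      simp only [Nat.cast_zero] at e4 ⊢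
      nlinarith
    · have hn1 : (1 : ℝ) ≤ n := by exact_mod_cast hn
      have h2 : (1 : ℝ) ≤ (n : ℝ) ^ δ := Real.one_le_rpow hn1 h0.le
      have h3 : (N n : ℝ) ≤ (2 * F + 1) * (n : ℝ) ^ δ := by
        have := hNF n
        nlinarith
      calc ((N n : ℕ) : ℝ) ^ δ ≤ ((2 * F + 1) * (n : ℝ) ^ δ) ^ δ :=
            Real.rpow_le_rpow (by positivity) h3 h0.le
        _ = (2 * F + 1) ^ δ * (n : ℝ) ^ (δ * δ) := by
            rw [Real.mul_rpow (by positivity) (by positivity), ← Real.rpow_mul (by positivity)]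
        _ ≤ (2 * F + 1) ^ (1 : ℝ) * (n : ℝ) ^ (δ * δ) := by
            apply mul_le_mul_of_nonneg_right _ e4
            exact Real.rpow_le_rpow_of_exponent_le (by linarith) h1
        _ ≤ _ := by
            rw [Real.rpow_one]
            nlinarith
  set G := |C'| + 2 * E with hG
  have hG0 : 0 ≤ G := by positivity
  refine ⟨G * (2 * F + 1) + G * (2 * F + 1) + G + 1, (hstep _ hC').mono fun n => ?_⟩
  have e1 := hE (N n)
  have e2 := hpow n
  have e3 : (0 : ℝ) ≤ ((N n : ℕ) : ℝ) ^ δ := by positivity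
  have e4 : (0 : ℝ) ≤ (n : ℝ) ^ (δ * δ) := by positivity
  have e5 := le_abs_self C'
  have e6 : C' * ((N n : ℕ) : ℝ) ^ δ + C' + 2 * ((N n).size : ℝ) + 1 ≤
      G * ((N n : ℕ) : ℝ) ^ δ + G + 1 := by
    rw [hG]
    nlinarith
  have e7 := mul_le_mul_of_nonneg_left e2 hG0
  have e8 : 0 ≤ G * (2 * F + 1) := by positivity
  nlinarith

theorem Pow.mono {δ ε : ℝ} (h0 : 0 < ε) (h1 : δ ≤ ε) (h : Pow δ) : Pow ε := by
  intro L hL
  obtain ⟨C, hC⟩ := h L hL
  refine ⟨2 * |C|, hC.mono fun n => ?_⟩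
  have e1 : (n : ℝ) ^ δ ≤ (n : ℝ) ^ ε + 1 := by
    rcases Nat.eq_zero_or_pos n with hn | hn
    · subst hn
      rw [Nat.cast_zero, Real.zero_rpow h0.ne']
      rcases eq_or_ne δ 0 with h | h
      · rw [h, Real.rpow_zero]
        norm_num
      · rw [Real.zero_rpow h]
        norm_num
    · have hn1 : (1 : ℝ) ≤ n := by exact_mod_cast hn
      have := Real.rpow_le_rpow_of_exponent_le hn1 h1
      linarith
  have e2 : (0 : ℝ) ≤ (n : ℝ) ^ δ := by positivity
  have e3 := le_abs_self C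
  have e4 := abs_nonneg C
  have e5 : (0 : ℝ) ≤ (n : ℝ) ^ ε := by positivity
  nlinarith

/-- **The gap theorem for powers.** -/
theorem pow_gap {δ : ℝ} (h1 : δ < 1) (h : Pow δ) {ε : ℝ} (hε : 0 < ε) : Pow ε := by
  -- we may assume that `δ` is positive
  obtain ⟨d, hd0, hd1, hd⟩ : ∃ d : ℝ, 0 < d ∧ d < 1 ∧ Pow d := by
    rcases le_or_gt δ (1 / 2) with h2 | h2
    · exact ⟨1 / 2, by norm_num, by norm_num, h.mono (by norm_num) h2⟩
    · exact ⟨δ, by linarith, h1, h⟩
  have key : ∀ k : ℕ, Pow (d ^ (2 ^ k)) := by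
    intro k
    induction k with
    | zero => simpa using hd
    | succ k ih =>
      have := ih.sq (by positivity) (pow_le_one₀ hd0.le hd1.le)
      rwa [← pow_add, ← two_mul, ← pow_succ'] at this
  obtain ⟨m, hm⟩ := exists_pow_lt_of_lt_one hε hd1
  refine (key m).mono hε ?_
  refine le_trans (pow_le_pow_of_le_one hd0.le hd1.le ?_) hm.le
  exact Nat.lt_two_pow_self.le

/-- one round, linear bounds -/
theorem Lin.sq {c c' : ℝ} (h0 : 0 < c) (h1 : c < 1) (h : Lin c) (hc' : c * c < c') : Lin c' := by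
  intro L hL
  obtain ⟨C, B, f, hB, hlen, hf⟩ := h L hL
  obtain ⟨U, N, D, hU, hD0, hN, hstep⟩ := step hL hB hf hlen (D := 1 + |C|) (fun n => by
    have := le_abs_self C
    have := abs_nonneg C
    have : (0 : ℝ) ≤ n := by positivity
    nlinarith) (δ := 1 / 2) (by norm_num) (by norm_num)
  obtain ⟨C', hC'⟩ := h U hU
  obtain ⟨E, hE0, hE⟩ := size_le_rpow (δ := 1 / 2) (by norm_num)
  -- small powers are absorbed
  have habs : ∀ (a η : ℝ), 0 ≤ a → 0 < η → ∃ M : ℝ, 0 ≤ M ∧ ∀ n : ℕ,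
      a * (n : ℝ) ^ (1 / 2 : ℝ) ≤ η * n + M := by
    intro a η ha hη
    refine ⟨a ^ 2 / η, by positivity, fun n => ?_⟩
    have e1 : ((n : ℝ) ^ (1 / 2 : ℝ)) * ((n : ℝ) ^ (1 / 2 : ℝ)) = n := by
      rw [← Real.sqrt_eq_rpow]
      exact Real.mul_self_sqrt (by positivity)
    set s := (n : ℝ) ^ (1 / 2 : ℝ) with hs
    rw [← e1]
    have e2 : 0 ≤ (η * s - a) ^ 2 / η := by positivity
    have e3 : (η * s - a) ^ 2 / η = η * (s * s) - 2 * a * s + a ^ 2 / η := by
      field_simp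
      ring
    have e4 : 0 ≤ s := by positivity
    have e5 : 0 ≤ a * s := by positivity
    nlinarith
  set η := (c' - c * c) / 4 with hη
  have hη0 : 0 < η := by
    rw [hη]
    linarith
  obtain ⟨M₁, hM₁0, hM₁⟩ := habs D η hD0 hη0
  obtain ⟨M₂, hM₂0, hM₂⟩ := habs (2 * E) η (by positivity) hη0
  -- `η` may be assumed to be small
  have hηc : (c + η) * (c + η) ≤ c' ∨ c' > 1 := by
    by_cases hc1 : c' > 1
    · exact Or.inr hc1
    · left
      push Not at hc1
      have e1 : η ≤ 1 / 4 := by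
        rw [hη]
        nlinarith
      have e2 : c' = c * c + 4 * η := by
        rw [hη]
        ring
      nlinarith
  rcases hηc with hηc | hc1
  · refine ⟨(c + η) * (C + M₁ + D) + (C' + M₂ + 2 * E + 1) + |(c + η) * (C + M₁ + D)|, (hstep _ hC').mono fun n => ?_⟩
    have e1 : (N n : ℝ) ≤ (c + η) * n + (C + M₁ + D) := by
      have := hN n
      have := hM₁ n
      linarith
    have e2 := hE (N n)
    have e3 := hM₂ (N n)
    have e4 : c * (N n : ℝ) + C' + 2 * ((N n).size : ℝ) + 1 ≤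
        (c + η) * (N n) + (C' + M₂ + 2 * E + 1) := by linarith
    have e5 : (c + η) * (N n : ℝ) ≤ (c + η) * ((c + η) * n + (C + M₁ + D)) :=
      mul_le_mul_of_nonneg_left e1 (by linarith)
    have e6 : (0 : ℝ) ≤ n := by positivity
    have e7 : (c + η) * (c + η) * (n : ℝ) ≤ c' * n := mul_le_mul_of_nonneg_right hηc e6
    have e8 := abs_nonneg ((c + η) * (C + M₁ + D))
    nlinarith
  · refine ⟨|C|, WithAdvice.mono (fun n => ?_) ⟨B, f, hB, hlen, hf⟩⟩
    have e6 : (0 : ℝ) ≤ n := by positivity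
    have := le_abs_self C
    nlinarith

theorem Lin.mono {c c' : ℝ} (h1 : c ≤ c') (h : Lin c) : Lin c' := by
  intro L hL
  obtain ⟨C, hC⟩ := h L hL
  refine ⟨C, hC.mono fun n => ?_⟩
  have e6 : (0 : ℝ) ≤ n := by positivity
  nlinarith

/-- **The gap theorem for linear bounds.** -/
theorem lin_gap {c : ℝ} (h1 : c < 1) (h : Lin c) {ε : ℝ} (hε : 0 < ε) : Lin ε := by
  obtain ⟨d, hd0, hd1, hd⟩ : ∃ d : ℝ, 0 < d ∧ d < 1 ∧ Lin (d * d) := by
    rcases le_or_gt c (1 / 4) with h2 | h2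
    · exact ⟨1 / 2, by norm_num, by norm_num, h.mono (by linarith)⟩
    · refine ⟨Real.sqrt c, Real.sqrt_pos.2 (by linarith), ?_, ?_⟩
      · rw [Real.sqrt_lt' (by norm_num)]
        simpa using h1
      · rw [Real.mul_self_sqrt (by linarith)]
        exact h
  have key : ∀ k : ℕ, Lin (d ^ (k + 2)) := by
    intro k
    induction k with
    | zero => simpa [sq] using hd
    | succ k ih =>
      refine ih.sq (by positivity) (pow_lt_one₀ hd0.le hd1 (by omega)) ?_
      rw [← pow_add]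
      exact pow_lt_pow_right_of_lt_one₀ hd0 hd1 (by omega)
  obtain ⟨m, hm⟩ := exists_pow_lt_of_lt_one hε hd1
  refine (key m).mono (le_trans (pow_le_pow_of_le_one hd0.le hd1.le ?_) hm.le)
  omega

end Pool.Agent.W2helper58.NX
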